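import Pool.Agent.Helper85.REC.Stmts14b

/-!
# Row DIG: digits
-/

set_option autoImplicit false

namespace Pool.Agent.Helper15.REC

open Finset

/-- the number with digits `a`, base `l`, length `r` -/
def dE (l r : ℕ) (a : ℕ → ℕ) : ℕ := ∑ i ∈ Finset.range r, l ^ i * a i

theorem dE_lt (l : ℕ) (hl : 1 < l) (a : ℕ → ℕ) (ha : ∀ i, a i + 1 < l) :
    ∀ r, 0 < r → dE l r a + 1 < l ^ r := by
  intro r hr
  induction r with
  | zero => omega
  | succ n ih =>
    unfold dE
    rw [Finset.sum_range_succ]
    rcases Nat.eq_zero_or_pos n with h0 | hp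
    · subst h0
      simpa using ha 0
    · have h1 := ih hp
      unfold dE at h1
      have h2 := ha n
      have h3 : l ^ n * (a n + 2) ≤ l ^ n * l := Nat.mul_le_mul_left _ (by omega)
      have h4 : l ^ (n + 1) = l ^ n * l := pow_succ _ _
      rw [h4]
      have h5 : l ^ n * (a n + 2) = l ^ n * a n + 2 * l ^ n := by ring
      have h6 : 0 < l ^ n := pow_pos (by omega) _
      omega

theorem dE_inj (l : ℕ) (hl : 1 < l) : ∀ (r : ℕ) (b c : ℕ → ℕ), (∀ i, b i < l) → (∀ i, c i < l) →
    dE l r b = dE l r c → ∀ i, i < r → b i = c i := by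
  intro r
  induction r with
  | zero => intro b c _ _ _ i hi; omega
  | succ n ih =>
    intro b c hb hc h i hi
    have key : ∀ a : ℕ → ℕ, dE l (n + 1) a = l * dE l n (fun i => a (i + 1)) + a 0 := by
      intro a
      unfold dE
      rw [Finset.sum_range_succ', Finset.mul_sum]
      simp only [pow_zero, one_mul]
      congr 1
      refine Finset.sum_congr rfl (fun i _ => ?_)
      rw [pow_succ]
      ring
    rw [key b, key c] at h
    have h0 : b 0 = c 0 := by
      have := congrArg (fun t => t % l) h
      simp only [Nat.mul_add_mod] at this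
      rwa [Nat.mod_eq_of_lt (hb 0), Nat.mod_eq_of_lt (hc 0)] at this
    have h1 : dE l n (fun i => b (i + 1)) = dE l n (fun i => c (i + 1)) := by
      rw [h0] at h
      have := Nat.add_right_cancel h
      exact Nat.eq_of_mul_eq_mul_left (by omega) this
    cases i with
    | zero => exact h0
    | succ j => exact ih _ _ (fun i => hb _) (fun i => hc _) h1 j (by omega)

theorem dE_shift (l r : ℕ) (a : ℕ → ℕ) (hr : 0 < r) (hp : ∀ i, a (i + r) = a i) :
    l * dE l r a + a (r - 1) = dE l r (fun i => a (i + (r - 1))) + l ^ r * a (r - 1) := by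
  obtain ⟨n, rfl⟩ : ∃ n, r = n + 1 := ⟨r - 1, by omega⟩
  have h1 : dE l (n + 1) (fun i => a (i + (n + 1 - 1))) = l * dE l n a + a n := by
    unfold dE
    rw [Finset.sum_range_succ', Finset.mul_sum]
    simp only [pow_zero, one_mul, Nat.add_sub_cancel, Nat.zero_add]
    congr 1
    refine Finset.sum_congr rfl (fun i _ => ?_)
    have : a (i + 1 + n) = a i := by
      have := hp i
      rwa [show i + (n + 1) = i + 1 + n by ring] at this
    rw [this, pow_succ]
    ring
  have h2 : dE l (n + 1) a = dE l n a + l ^ n * a n := by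
    unfold dE
    rw [Finset.sum_range_succ]
  rw [h1, h2, Nat.add_sub_cancel, pow_succ]
  ring

theorem dE_cong (l r : ℕ) (hr : 0 < r) (hl : 1 < l) : ∀ (f : ℕ) (a : ℕ → ℕ), (∀ i, a (i + r) = a i) →
    l ^ f * dE l r a ≡ dE l r (fun i => a (i + f * (r - 1))) [MOD (l ^ r - 1)] := by
  intro f
  induction f with
  | zero => intro a _; simp [Nat.ModEq.refl]
  | succ n ih =>
    intro a hp
    have h1 := dE_shift l r a hr hp
    have hpos : 0 < l ^ r := pow_pos (by omega) _
    have h2 : l * dE l r a = dE l r (fun i => a (i + (r - 1))) + (l ^ r - 1) * a (r - 1) := by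
      have h3 : (l ^ r - 1) * a (r - 1) + a (r - 1) = l ^ r * a (r - 1) := by
        obtain ⟨m, hm⟩ : ∃ m, l ^ r = m + 1 := ⟨l ^ r - 1, by omega⟩
        rw [hm, Nat.add_sub_cancel]
        ring
      omega
    have h4 := ih (fun i => a (i + (r - 1))) (fun i => by
      show a (i + r + (r - 1)) = a (i + (r - 1))
      rw [show i + r + (r - 1) = i + (r - 1) + r by ring]
      exact hp _)
    have h5 : l ^ (n + 1) * dE l r a = l ^ n * (l * dE l r a) := by
      rw [pow_succ]; ring
    rw [h5, h2]
    have h6 : l ^ n * (dE l r (fun i => a (i + (r - 1))) + (l ^ r - 1) * a (r - 1)) ≡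
        l ^ n * dE l r (fun i => a (i + (r - 1))) [MOD (l ^ r - 1)] := by
      refine Nat.ModEq.mul_left _ ?_
      exact Nat.ModEq.symm ((Nat.modEq_iff_dvd' (Nat.le_add_right _ _)).2 (by simp))
    refine h6.trans (h4.trans ?_)
    have h7 : (fun i => a (i + n * (r - 1) + (r - 1))) = (fun i => a (i + (n + 1) * (r - 1))) := by
      funext i
      congr 1
      ring
    show dE l r (fun i => a (i + n * (r - 1) + (r - 1))) ≡ _ [MOD (l ^ r - 1)]
    rw [h7]

theorem digits : REC.ST_DIG := by
  intro l r f a hl hr ha hp hdvd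
  have hsum : ∑ i ∈ Finset.range r, l ^ i * a i = dE l r a := rfl
  rw [hsum] at hdvd
  have h1 := dE_cong l r hr hl f a hp
  have hpos : 0 < l ^ f := pow_pos (by omega) _
  have h2 : dE l r a ≡ l ^ f * dE l r a [MOD (l ^ r - 1)] := by
    refine (Nat.modEq_iff_dvd' (Nat.le_mul_of_pos_left _ hpos)).2 ?_
    have h3 : l ^ f * dE l r a - dE l r a = dE l r a * (l ^ f - 1) := by
      rw [Nat.mul_sub, mul_one, mul_comm]
    rw [h3]
    exact hdvd
  have h3 := h2.trans h1
  have hb : ∀ i, (fun i => a (i + f * (r - 1))) i + 1 < l := fun i => ha _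
  have h4 := dE_lt l hl a ha r hr
  have h5 := dE_lt l hl _ hb r hr
  have h6 : dE l r a = dE l r (fun i => a (i + f * (r - 1))) :=
    Nat.ModEq.eq_of_lt_of_lt h3 (by omega) (by omega)
  have h7 := dE_inj l hl r _ _ (fun i => by have := ha i; omega)
    (fun i => by show a (i + f * (r - 1)) < l; have := ha (i + f * (r - 1)); omega) h6
  have hper : ∀ (k i : ℕ), a (i + k * r) = a i := by
    intro k
    induction k with
    | zero => intro i; simp
    | succ n ih =>
      intro i
      rw [show i + (n + 1) * r = i + n * r + r by ring, hp, ih]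
  have h8 : ∀ i, a i = a (i + f * (r - 1)) := by
    intro i
    have h9 := h7 (i % r) (Nat.mod_lt _ hr)
    have h10 : i = i % r + (i / r) * r := by
      rw [mul_comm]; exact (Nat.mod_add_div i r).symm
    have e1 : a i = a (i % r) := by
      have := hper (i / r) (i % r)
      rwa [← h10] at this
    have e2 : a (i + f * (r - 1)) = a (i % r + f * (r - 1)) := by
      have := hper (i / r) (i % r + f * (r - 1))
      rwa [show i % r + f * (r - 1) + i / r * r = (i % r + i / r * r) + f * (r - 1) by ring,
        ← h10] at this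
    rw [e1, e2]
    exact h9
  intro i
  rw [h8 (i + f)]
  have h11 : i + f + f * (r - 1) = i + f * r := by
    obtain ⟨n, rfl⟩ : ∃ n, r = n + 1 := ⟨r - 1, by omega⟩
    rw [Nat.add_sub_cancel]
    ring
  rw [h11]
  exact hper f i

end Pool.Agent.Helper15.REC
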