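import Pool.Agent.Helper15.REC.FDCa

set_option autoImplicit false

/-! REC, row FDC: a stable line over `k` gives the data of `FDat`. -/

open scoped Classical
open NumberField Polynomial

namespace Pool.Agent.Helper15.REC

open _root_.REC
open Pool.Agent.Helper13.ZL (Pl q)
open MU
open Pool.Agent.Helper61.REC
open Pool.Agent.Helper52.REC

section

variable {F : Type} [Field F] [NumberField F]

/-- the product of conjugates in terms of the embeddings of `ST_EMF` -/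
theorem tmp_emb {k : Type} [Field k] (ι : 𝓞 (AlgebraicClosure F) →+* k) (v : Pl F) (l f : ℕ)
    (T : Fin f → F →+* AlgebraicClosure F) (hT : Function.Injective T)
    (hTk : ∀ τ : F →+* AlgebraicClosure F, (∃ i, T i = τ) ↔
        RingHom.ker (ι.comp (RingOfIntegers.mapRingHom τ)) = v.asIdeal)
    (u : 𝓞 F) (w : k) (hTi : ∀ i : Fin f, ι (RingOfIntegers.mapRingHom (T i) u) =
      w ^ (l ^ (i : ℕ))) (e : (F →+* AlgebraicClosure F) → ℕ) (a : ℕ → ℕ)
    (he : ∀ i : Fin f, e (T i) = a i) :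
    tmp ι v e u = w ^ (∑ i ∈ Finset.range f, l ^ i * a i) := by
  unfold tmp
  have h1 : (∏ τ : F →+* AlgebraicClosure F,
      if RingHom.ker (ι.comp (RingOfIntegers.mapRingHom τ)) = v.asIdeal then
        ι (RingOfIntegers.mapRingHom τ u) ^ e τ else 1) =
      ∏ τ ∈ Finset.univ.image T, ι (RingOfIntegers.mapRingHom τ u) ^ e τ := by
    rw [← Finset.prod_filter]
    refine Finset.prod_congr ?_ fun _ _ => rfl
    ext τ
    rw [Finset.mem_filter, Finset.mem_image, ← hTk τ]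
    constructor
    · rintro ⟨-, i, hi⟩
      exact ⟨i, Finset.mem_univ _, hi⟩
    · rintro ⟨i, -, hi⟩
      exact ⟨Finset.mem_univ _, i, hi⟩
  rw [h1, Finset.prod_image (fun i _ j _ hij => hT hij), Finset.sum_range,
    ← Finset.prod_pow_eq_pow_sum]
  refine Finset.prod_congr rfl fun i _ => ?_
  rw [hTi, he, ← pow_mul]

omit [NumberField F] in
/-- elements acting as a power of Frobenius fix the prime -/
theorem cp_fix (P : Ideal (Zb F)) (hP : P.IsPrime) (Q : ℕ) (hQ : Q ≠ 0) (φ : Gal F)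
    (hφ : CongPow P Q φ) (x y : Zb F) (h : (y : AlgebraicClosure F) = φ (x : AlgebraicClosure F)) :
    x ∈ P ↔ y ∈ P := by
  have h1 : (y - x ^ Q : Zb F) ∈ P := hφ x y h
  constructor
  · intro hx
    have h2 := P.add_mem h1 (P.pow_mem_of_mem hx Q (Nat.pos_of_ne_zero hQ))
    rwa [sub_add_cancel] at h2
  · intro hy
    have h2 := P.sub_mem hy h1
    rw [sub_sub_cancel] at h2
    exact hP.mem_of_pow_mem _ h2

omit [NumberField F] in
theorem ex_zb (u : 𝓞 F) : ∃ ub : Zb F,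
    (ub : AlgebraicClosure F) = algebraMap F (AlgebraicClosure F) (u : F) :=
  ⟨⟨algebraMap F (AlgebraicClosure F) (u : F),
    map_isIntegral_int _ (RingOfIntegers.isIntegral_coe u)⟩, rfl⟩

end

theorem st_FDC (hTSR : ST_TSR) (hTCH : ST_TCH) (hDIG : ST_DIG) (hEMF : ST_EMF)
    (hOVP : ST_OVP) : ST_FDC := by
  intro F _ _ S hS w h M hFLC
  obtain ⟨c1, hc1⟩ := hFLC
  obtain ⟨c2, hc2⟩ := hTSR F
  obtain ⟨c3, hc3⟩ := hTCH F
  obtain ⟨c4, hc4⟩ := hEMF F
  refine ⟨c1 + c2 + c3 + c4 + (∑ j, h j) + 1, ?_⟩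
  intro l _ hl k _ _ κ B₁ A₁ h₁
  obtain ⟨ι, hι⟩ := exists_iota F l k κ
  have hE : EqvQ (M.ρ l) (M.ρ l) := eqvQ_refl _
  have h₂ : IsSub (mapk κ (res (M.ρ l))) 1 (mapk κ (res (M.ρ l))) := IsSub.whole _
  set δ : Fin 2 → Gal F →* kˣ := ![subDet h₁, subDet h₂ / subDet h₁] with hδ
  have hδ0 : ∀ g, ((δ 0 g : kˣ) : k) = (A₁ g).det := fun g => rfl
  have hδ1 : ∀ g, ((δ 1 g : kˣ) : k) = (mapk κ (res (M.ρ l)) g).det / (A₁ g).det := fun g => by
    have : δ 1 g = subDet h₂ g / subDet h₁ g := rfl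
    rw [this, Units.val_div_eq_div_val, subDet_coe, subDet_coe]
  -- the characteristic polynomials
  have hcp : ∀ g, (mapk κ (res (M.ρ l)) g).charpoly =
      ∏ i, (Polynomial.X - C ((δ i g : kˣ) : k)) := by
    intro g
    obtain ⟨C₁, hC₁⟩ := h₁.1
    rw [Fin.prod_univ_two, hδ0, hδ1]
    exact line_charpoly _ B₁ (A₁ g) C₁ hC₁ (h₁.2 g) (subDet_ne h₁ g)
  have hcp2 : ∀ g, (res (M.ρ l) g).charpoly.map κ =
      ∏ i, (Polynomial.X - C ((δ i g : kˣ) : k)) := by
    intro g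
    rw [← hcp, ← Matrix.charpoly_map]
    rfl
  -- the places over `l`
  have key : ∀ v : Pl F, (l : 𝓞 F) ∈ v.asIdeal →
      ∃ e : Fin 2 → (F →+* AlgebraicClosure F) → ℕ,
      (∀ τ, ∃ s : Equiv.Perm (Fin 2), ∀ i, e i τ = h (s i)) ∧
      ∀ i (π : 𝓞 F), π ∈ v.asIdeal → π ∉ v.asIdeal ^ 2 → ∀ 𝔓 : Ideal (Zb F), OverP v 𝔓 →
        ∀ σ : Gal F, CongPow 𝔓 1 σ → ∀ u : 𝓞 F, u ∉ v.asIdeal → Tm v 𝔓 π σ u →
          ((δ i σ : kˣ) : k) * tmp ι v (e i) u = 1 := by
    intro v hv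
    obtain ⟨θ, f, T, hθ, hθv, hf, hq, hT, hTk, hTi⟩ := hc4 l (by omega) k ι hι v hv
    obtain ⟨r, s, hr, hs⟩ := hc1 l (by omega) k κ θ
    obtain ⟨σ0, y0, z0, hσ0, hy0, hz0, hord⟩ := hc2 l (by omega) k θ hθ r hr
    obtain ⟨t1, t2, t3, t4, t5⟩ := hc3 l (by omega) k θ hθ
    obtain ⟨t5a, t5b⟩ := t5 v f hθv hq
    have hover : Over l (RingHom.ker θ) := ⟨RingHom.ker_isPrime θ, hθ⟩
    have L : Loc l δ θ r s h σ0 (θ z0) :=
      { ex := t1
        uniq := t2
        mul := t3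
        lev := t4
        two := (Fact.out : l.Prime).two_le
        inv := by
          intro σ hσ
          have h1 := H72.congPow_div l (RingHom.ker θ) Fact.out hover 0 0 σ 1 le_rfl
            (by rw [pow_zero]; exact hσ) (by rw [pow_zero]; exact H72.congPow_one _)
          rw [Nat.sub_zero, pow_zero, mul_one] at h1
          exact h1
        pos := hr
        bd := by
          intro j
          have h1 : h j ≤ ∑ j, h j :=
            Finset.single_le_sum (fun _ _ => Nat.zero_le _) (Finset.mem_univ j)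
          omega
        flc := by
          rintro σ a hσ ⟨y, z, hy, hz, rfl⟩
          rw [← hs σ y z hσ hy hz, hcp2]
        i0 := hσ0
        f0 := ⟨y0, z0, hy0, hz0, rfl⟩
        ord := hord }
    obtain ⟨t, ht⟩ := L.val
    obtain ⟨φ, hφ⟩ := (hOVP F).2.1 v _ hθv
    have hq0 : q v ≠ 0 := by
      rw [hq]
      exact pow_ne_zero _ (Fact.out : l.Prime).ne_zero
    have hper := L.per hDIG f (q v) hq φ
      (H72.congPow_conj _ _ φ (cp_fix _ (RingHom.ker_isPrime θ) _ hq0 φ hφ) 1 σ0 hσ0)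
      (t5a r φ σ0 _ hr hφ hσ0 L.f0) t ht
    refine ⟨fun b τ => if hτ : ∃ i, T i = τ then dg s L.pos h (t b) (hτ.choose : ℕ) else h b,
      ?_, ?_⟩
    · intro τ
      by_cases hτ : ∃ i, T i = τ
      · refine ⟨t.trans (s ⟨(hτ.choose : ℕ) % r, Nat.mod_lt _ hr⟩), fun i => ?_⟩
        beta_reduce
        rw [dif_pos hτ]
        rfl
      · refine ⟨1, fun i => ?_⟩
        beta_reduce
        rw [dif_neg hτ]
        rfl
    · intro b π hπ hπ2 𝔓 h𝔓 σ hσ u hu hTm
      obtain ⟨g, hg⟩ := (hOVP F).2.2.2.2.2.1 v 𝔓 (RingHom.ker θ) h𝔓 hθv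
      have hσ' := H72.congPow_conj _ _ g hg 1 σ hσ
      have hTm' := tm_conj v 𝔓 (RingHom.ker θ) g hg π σ u hTm
      obtain ⟨ub, hub⟩ := ex_zb u
      have hw := t5b π hπ hπ2 (g * σ * g⁻¹) u ub hσ' hu hTm' hub
      have h1 := L.levf f hf t ht hper (g * σ * g⁻¹) (θ ub) hσ' hw b
      have h3 : δ b (g * σ * g⁻¹)⁻¹ = (δ b σ)⁻¹ := by
        rw [map_inv, map_mul, map_mul, map_inv, mul_right_comm, mul_inv_cancel, one_mul]
      rw [h3] at h1
      rw [tmp_emb ι v l f T hT hTk u (θ ub) (fun i => hTi i u ub hub) _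
        (dg s L.pos h (t b)) ?_, ← h1, ← Units.val_mul, mul_inv_cancel, Units.val_one]
      intro i
      have hex : ∃ j, T j = T i := ⟨i, rfl⟩
      beta_reduce
      rw [dif_pos hex]
      congr 2
      exact hT hex.choose_spec
  choose! ev hev1 hev2 using key
  choose! vt hvt hlv using plOf (F := F) ι l hι
  refine ⟨k, inferInstance, κ, ι, δ, fun i τ => ev (vt τ) i τ,
    fun τ => hev1 (vt τ) (hlv τ) τ, ?_, ?_, ?_, hcp2⟩
  · -- open kernels
    intro i
    refine open_of_res (eqvQ_cont hE (M.continuous l)) _ ?_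
    intro g hg
    have hg' : mapk κ (res (M.ρ l)) g = 1 := by
      show (κ.mapMatrix (m := Fin 2)) (res (M.ρ l) g) = 1
      rw [hg, map_one]
    rw [MonoidHom.mem_ker]
    have e1 := subDet_of_one h₁ g hg'
    have e2 := subDet_of_one h₂ g hg'
    fin_cases i
    · exact e1
    · show subDet h₂ g / subDet h₁ g = 1
      rw [e1, e2, div_one]
  · -- inertia away from `l`
    intro i v hv 𝔓 h𝔓 σ hσ
    obtain ⟨p, f, hp, -, -, hO, hpv⟩ := (hOVP F).2.2.2.1 v 𝔓 h𝔓
    have hpl : p ≠ l := by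
      rintro rfl
      exact hv hpv
    have h1 := inr_unip2 M l hE p hp hpl 𝔓 hO σ hσ
    have h2 : (mapk κ (res (M.ρ l)) σ - 1) ^ 2 = 0 := by
      have h3 := congrArg (κ.mapMatrix (m := Fin 2)) h1
      rw [map_pow, map_sub, map_one, map_zero] at h3
      exact h3
    apply Units.ext
    rw [Units.val_one]
    refine unip_root _ h2 _ ?_
    rw [hcp, IsRoot.def, eval_prod]
    refine Finset.prod_eq_zero (Finset.mem_univ i) ?_
    rw [eval_sub, eval_X, eval_C, sub_self]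
  · -- inertia at `l`
    intro i v hv π hπ hπ2 𝔓 h𝔓 σ hσ u hu hT
    have hvv : ∀ τ, RingHom.ker (ι.comp (RingOfIntegers.mapRingHom τ)) = v.asIdeal → vt τ = v := by
      intro τ hτ
      apply IsDedekindDomain.HeightOneSpectrum.ext
      rw [← hvt τ, hτ]
    rw [tmp_congr ι v (fun τ => ev (vt τ) i τ) (ev v i) u
      fun τ hτ => by show ev (vt τ) i τ = ev v i τ; rw [hvv τ hτ]]
    exact hev2 v hv i π hπ hπ2 𝔓 h𝔓 σ hσ u hu hT

end Pool.Agent.Helper15.REC
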