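import Pool.Agent.Helper52.REC.FD2
import Pool.Agent.Helper85.REC.Stmts14b
import Pool.Agent.Helper72.REC.CPW

set_option autoImplicit false

/-! REC, row FDC: first part, the action of inertia on a stable line. -/

open scoped Classical
open NumberField Polynomial

namespace Pool.Agent.Helper15.REC

open _root_.REC
open Pool.Agent.Helper13.ZL (Pl q)
open MU

/-! ### Arithmetic -/

/-- the value at `l` of the first `m * n` digits of an `m`-periodic sequence -/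
theorem sum_period (l m : ℕ) (a : ℕ → ℕ) (hl : 2 ≤ l) (hm : 0 < m) (ha : ∀ i, a (i + m) = a i)
    (n : ℕ) : ∑ i ∈ Finset.range (m * n), l ^ i * a i =
      (l ^ (m * n) - 1) / (l ^ m - 1) * ∑ i ∈ Finset.range m, l ^ i * a i := by
  have hlm : 2 ≤ l ^ m := hl.trans (Nat.le_self_pow hm.ne' l)
  have h1 : ∀ n, (l ^ (m * n) - 1) / (l ^ m - 1) = ∑ j ∈ Finset.range n, (l ^ m) ^ j := by
    intro n
    rw [Nat.geomSum_eq hlm, pow_mul]
  have h2 : ∀ j i, a (m * j + i) = a i := by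
    intro j
    induction j with
    | zero => intro i; rw [Nat.mul_zero, Nat.zero_add]
    | succ j ih =>
      intro i
      rw [Nat.mul_succ, Nat.add_right_comm, ha, ih]
  rw [h1]
  induction n with
  | zero => simp
  | succ n ih =>
    rw [Nat.mul_succ, Finset.sum_range_add, ih, Finset.sum_range_succ, add_mul, ← pow_mul]
    congr 1
    rw [Finset.mul_sum]
    refine Finset.sum_congr rfl fun i _ => ?_
    rw [h2, pow_add, mul_assoc]

/-- two factorizations of a quadratic polynomial -/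
theorem two_roots {k : Type} [Field k] (a b : Fin 2 → k)
    (h : ∏ i, (Polynomial.X - C (a i)) = ∏ i, (Polynomial.X - C (b i))) :
    ∃ t : Equiv.Perm (Fin 2), ∀ i, a i = b (t i) := by
  rw [Fin.prod_univ_two, Fin.prod_univ_two] at h
  have h0 : (a 0 - b 0) * (a 0 - b 1) = 0 := by
    have := congrArg (Polynomial.eval (a 0)) h
    simpa using this.symm
  have hs : a 0 + a 1 = b 0 + b 1 := by
    have h3 := congrArg (fun P => Polynomial.coeff P 1) h
    have h4 : ∀ x y : k, ((Polynomial.X - C x) * (Polynomial.X - C y)).coeff 1 = -(x + y) := by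
      intro x y
      have : (Polynomial.X - C x) * (Polynomial.X - C y) =
          Polynomial.X ^ 2 - C (x + y) * Polynomial.X + C (x * y) := by
        rw [C_add, C_mul]
        ring
      rw [this, coeff_add, coeff_sub, coeff_X_pow, coeff_C_mul, coeff_X_one, coeff_C]
      simp
    simp only [h4] at h3
    exact neg_injective h3
  rcases mul_eq_zero.1 h0 with h1 | h1
  · have e0 : a 0 = b 0 := sub_eq_zero.1 h1
    refine ⟨1, fun i => ?_⟩
    fin_cases i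
    · exact e0
    · show a 1 = b 1
      rw [e0] at hs
      exact add_left_cancel hs
  · have e0 : a 0 = b 1 := sub_eq_zero.1 h1
    refine ⟨Equiv.swap 0 1, fun i => ?_⟩
    fin_cases i
    · show a 0 = b (Equiv.swap 0 1 0)
      rw [Equiv.swap_apply_left]
      exact e0
    · show a 1 = b (Equiv.swap 0 1 1)
      rw [Equiv.swap_apply_right]
      rw [e0, add_comm (b 0)] at hs
      exact add_left_cancel hs

theorem prod_one_root {k : Type} [Field k] (a : Fin 2 → k)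
    (h : ∏ i, (Polynomial.X - C (a i)) = ∏ _i : Fin 2, (Polynomial.X - C (1 : k))) (i : Fin 2) :
    a i = 1 := by
  obtain ⟨t, ht⟩ := two_roots a (fun _ => 1) h
  exact ht i

section

variable {F : Type} [Field F] [NumberField F]

/-- transport of the tame character -/
theorem tm_conj (v : Pl F) (𝔓 P : Ideal (Zb F)) (g : Gal F)
    (hg : ∀ x y : Zb F, (y : AlgebraicClosure F) = g (x : AlgebraicClosure F) →
      (x ∈ 𝔓 ↔ y ∈ P)) (π : 𝓞 F) (σ : Gal F) (u : 𝓞 F) (hT : Tm v 𝔓 π σ u) :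
    Tm v P π (g * σ * g⁻¹) u := by
  intro y ζ c hy hζ hc
  obtain ⟨y', h1⟩ : ∃ y' : Zb F, (y' : AlgebraicClosure F) =
      (g⁻¹ : Gal F) (y : AlgebraicClosure F) :=
    H72.ex_img ((g⁻¹ : Gal F) : AlgebraicClosure F →+* AlgebraicClosure F) y
  obtain ⟨ζ', h2⟩ : ∃ ζ' : Zb F, (ζ' : AlgebraicClosure F) =
      (g⁻¹ : Gal F) (ζ : AlgebraicClosure F) :=
    H72.ex_img ((g⁻¹ : Gal F) : AlgebraicClosure F →+* AlgebraicClosure F) ζ
  have h3 := hT y' ζ' c ?_ ?_ hc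
  · refine (hg (ζ' - c) (ζ - c) ?_).1 h3
    have h4 : ((ζ' - c : Zb F) : AlgebraicClosure F) = (ζ' : AlgebraicClosure F) - c := rfl
    have h5 : ((ζ - c : Zb F) : AlgebraicClosure F) = (ζ : AlgebraicClosure F) - c := rfl
    rw [h4, h5, map_sub, h2, hc, AlgEquiv.commutes]
    congr 1
    exact (AlgEquiv.apply_symm_apply g _).symm
  · rw [h1, ← map_pow, hy, AlgEquiv.commutes]
  · rw [h1, h2, ← map_mul, hζ]
    exact AlgEquiv.symm_apply_apply g _

/-! ### Inertia acts through the fundamental character -/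

/-- the data at one place over `l` -/
structure Loc (l : ℕ) {k : Type} [Field k] (δ : Fin 2 → Gal F →* kˣ) (θ : Zb F →+* k) (r : ℕ)
    (s : Fin r → Equiv.Perm (Fin 2)) (h : Fin 2 → ℕ) (σ0 : Gal F) (z0 : k) : Prop where
  ex : ∀ (r : ℕ) (σ : Gal F), 0 < r → CongPow (RingHom.ker θ) 1 σ →
      ∃ a : k, FCh l θ r σ a ∧ a ^ (l ^ r - 1) = 1
  uniq : ∀ (r : ℕ) (σ : Gal F) (a b : k), 0 < r → CongPow (RingHom.ker θ) 1 σ → FCh l θ r σ a →
      FCh l θ r σ b → a = b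
  mul : ∀ (r : ℕ) (σ τ : Gal F) (a b : k), 0 < r → CongPow (RingHom.ker θ) 1 σ →
      CongPow (RingHom.ker θ) 1 τ → FCh l θ r σ a → FCh l θ r τ b → FCh l θ r (σ * τ) (a * b)
  lev : ∀ (r s : ℕ) (σ : Gal F) (a : k), 0 < r → 0 < s → CongPow (RingHom.ker θ) 1 σ →
      FCh l θ (r * s) σ a → FCh l θ r σ (a ^ ((l ^ (r * s) - 1) / (l ^ r - 1)))
  two : 2 ≤ l
  inv : ∀ σ : Gal F, CongPow (RingHom.ker θ) 1 σ → CongPow (RingHom.ker θ) 1 (σ⁻¹ : Gal F)
  pos : 0 < r
  bd : ∀ j, h j + 1 < l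
  flc : ∀ (σ : Gal F) (a : k), CongPow (RingHom.ker θ) 1 σ → FCh l θ r σ a →
    ∏ b, (Polynomial.X - C ((δ b σ⁻¹ : kˣ) : k)) =
      ∏ b, (Polynomial.X - C (a ^ (∑ i : Fin r, l ^ (i : ℕ) * h (s i b))))
  i0 : CongPow (RingHom.ker θ) 1 σ0
  f0 : FCh l θ r σ0 z0
  ord : orderOf z0 = l ^ r - 1

section

variable {l : ℕ} {k : Type} [Field k] {δ : Fin 2 → Gal F →* kˣ} {θ : Zb F →+* k} {r : ℕ}
  {s : Fin r → Equiv.Perm (Fin 2)} {h : Fin 2 → ℕ} {σ0 : Gal F} {z0 : k}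

theorem Loc.pw (L : Loc l δ θ r s h σ0 z0) (m : ℕ) :
    CongPow (RingHom.ker θ) 1 (σ0 ^ m : Gal F) ∧ FCh l θ r (σ0 ^ m) (z0 ^ m) := by
  induction m with
  | zero =>
    rw [pow_zero, pow_zero]
    refine ⟨H72.congPow_one _, ?_⟩
    obtain ⟨a, ha, -⟩ := L.ex r 1 L.pos (H72.congPow_one _)
    have h1 := L.mul r 1 1 a a L.pos (H72.congPow_one _) (H72.congPow_one _) ha ha
    rw [one_mul] at h1
    have h2 := L.uniq r 1 _ _ L.pos (H72.congPow_one _) ha h1
    have h3 : a ≠ 0 := by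
      rintro rfl
      obtain ⟨b, hb, hb1⟩ := L.ex r 1 L.pos (H72.congPow_one _)
      have h4 := L.uniq r 1 _ _ L.pos (H72.congPow_one _) ha hb
      rw [← h4, zero_pow] at hb1
      · exact zero_ne_one hb1
      · have : l ^ r ≥ 2 := L.two.trans (Nat.le_self_pow L.pos.ne' l)
        omega
    have h4 : a = 1 := by
      have : a * a = a * 1 := by rw [mul_one]; exact h2.symm
      exact mul_left_cancel₀ h3 this
    rw [← h4]
    exact ha
  | succ m ih =>
    refine ⟨?_, ?_⟩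
    · have := H72.congPow_mul _ _ _ _ _ ih.1 L.i0
      rw [mul_one] at this
      rw [pow_succ]
      exact this
    · rw [pow_succ, pow_succ]
      exact L.mul r _ _ _ _ L.pos ih.1 L.i0 ih.2 L.f0

/-- the characters are powers of the fundamental character -/
theorem Loc.val (L : Loc l δ θ r s h σ0 z0) : ∃ t : Equiv.Perm (Fin 2), ∀ (σ : Gal F) (a : k),
    CongPow (RingHom.ker θ) 1 σ → FCh l θ r σ a → ∀ b,
      ((δ b σ⁻¹ : kˣ) : k) = a ^ (∑ i : Fin r, l ^ (i : ℕ) * h (s i (t b))) := by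
  obtain ⟨t, ht⟩ := two_roots _ _ (L.flc σ0 z0 L.i0 L.f0)
  refine ⟨t, fun σ a hσ ha b => ?_⟩
  have hN : 0 < l ^ r - 1 := by
    have : l ^ r ≥ 2 := L.two.trans (Nat.le_self_pow L.pos.ne' l)
    omega
  have hprim : IsPrimitiveRoot z0 (l ^ r - 1) := by
    rw [← L.ord]
    exact IsPrimitiveRoot.orderOf z0
  have ha1 : a ^ (l ^ r - 1) = 1 := by
    obtain ⟨a', h1, h2⟩ := L.ex r σ L.pos hσ
    rw [L.uniq r σ _ _ L.pos hσ ha h1]
    exact h2
  have : NeZero (l ^ r - 1) := ⟨hN.ne'⟩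
  obtain ⟨m, -, hm⟩ := hprim.eq_pow_of_pow_eq_one ha1
  obtain ⟨hp1, hp2⟩ := L.pw m
  -- the quotient has value `1`
  have hq : CongPow (RingHom.ker θ) 1 (σ * (σ0 ^ m)⁻¹ : Gal F) := by
    have := H72.congPow_mul _ _ _ _ _ hσ (L.inv _ hp1)
    rw [mul_one] at this
    exact this
  obtain ⟨a', h1, h2⟩ := L.ex r _ L.pos hq
  have h3 := L.mul r _ _ _ _ L.pos hq hp1 h1 hp2
  rw [inv_mul_cancel_right, hm] at h3
  have h4 := L.uniq r _ _ _ L.pos hσ ha h3
  have ha0 : a ≠ 0 := by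
    rintro rfl
    rw [zero_pow hN.ne'] at ha1
    exact zero_ne_one ha1
  have h5 : a' = 1 := by
    have : a' * a = 1 * a := by rw [one_mul]; exact h4.symm
    exact mul_right_cancel₀ ha0 this
  have h6 := L.flc _ _ hq h1
  rw [h5] at h6
  simp only [one_pow] at h6
  have h7 := prod_one_root _ h6 b
  have h8 : δ b (σ * (σ0 ^ m)⁻¹)⁻¹ = 1 := Units.ext (by rw [h7, Units.val_one])
  rw [map_inv, inv_eq_one, map_mul, map_inv, map_pow, mul_inv_eq_one] at h8
  have h9 := ht b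
  rw [map_inv] at h9
  rw [map_inv, h8, ← inv_pow, Units.val_pow_eq_pow_val, h9, ← hm, ← pow_mul, ← pow_mul, mul_comm]

/-- the digits -/
noncomputable def dg (s : Fin r → Equiv.Perm (Fin 2)) (hr : 0 < r) (h : Fin 2 → ℕ) (b : Fin 2)
    (i : ℕ) : ℕ := h (s ⟨i % r, Nat.mod_lt _ hr⟩ b)

theorem dg_period (s : Fin r → Equiv.Perm (Fin 2)) (hr : 0 < r) (h : Fin 2 → ℕ) (b : Fin 2)
    (i : ℕ) : dg s hr h b (i + r) = dg s hr h b i := by
  unfold dg
  congr 3
  exact Fin.ext (Nat.add_mod_right i r)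

theorem dg_sum (s : Fin r → Equiv.Perm (Fin 2)) (hr : 0 < r) (h : Fin 2 → ℕ) (b : Fin 2) (l : ℕ) :
    ∑ i : Fin r, l ^ (i : ℕ) * h (s i b) = ∑ i ∈ Finset.range r, l ^ i * dg s hr h b i := by
  rw [Finset.sum_range]
  refine Finset.sum_congr rfl fun i _ => ?_
  unfold dg
  congr 4
  exact Fin.ext (Nat.mod_eq_of_lt i.2).symm

/-- the digits have period `f` -/
theorem Loc.per (hDIG : ST_DIG) (L : Loc l δ θ r s h σ0 z0) (f Q : ℕ) (hQ : Q = l ^ f)
    (φ : Gal F) (hφ : CongPow (RingHom.ker θ) 1 (φ * σ0 * φ⁻¹ : Gal F))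
    (hφv : FCh l θ r (φ * σ0 * φ⁻¹) (z0 ^ Q)) (t : Equiv.Perm (Fin 2))
    (ht : ∀ (σ : Gal F) (a : k),
      CongPow (RingHom.ker θ) 1 σ → FCh l θ r σ a → ∀ b,
      ((δ b σ⁻¹ : kˣ) : k) = a ^ (∑ i : Fin r, l ^ (i : ℕ) * h (s i (t b)))) (b : Fin 2) (i : ℕ) :
    dg s L.pos h (t b) (i + f) = dg s L.pos h (t b) i := by
  refine hDIG l r f (dg s L.pos h (t b)) (by have := L.two; omega) L.pos (fun i => L.bd _)
    (dg_period s L.pos h (t b)) ?_ i
  rw [← dg_sum s L.pos h (t b) l]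
  have h1 := ht _ _ L.i0 L.f0 b
  have h2 := ht _ _ hφ hφv b
  have h3 : δ b (φ * σ0 * φ⁻¹)⁻¹ = δ b σ0⁻¹ := by
    rw [map_inv, map_mul, map_mul, map_inv, mul_right_comm, mul_inv_cancel, one_mul, map_inv]
  rw [h3, h1] at h2
  rw [← L.ord]
  refine orderOf_dvd_of_pow_eq_one ?_
  have hz : z0 ≠ 0 := by
    rintro rfl
    have h4 : orderOf (0 : k) ≠ 0 := by
      rw [L.ord]
      have : l ^ r ≥ 2 := L.two.trans (Nat.le_self_pow L.pos.ne' l)
      omega
    have h5 := pow_orderOf_eq_one (0 : k)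
    rw [zero_pow h4] at h5
    exact zero_ne_one h5
  have hQ1 : 1 ≤ l ^ f := Nat.one_le_pow _ _ (by have := L.two; omega)
  set E := ∑ i : Fin r, l ^ (i : ℕ) * h (s i (t b)) with hE
  have h6 : z0 ^ (E * (l ^ f - 1)) * z0 ^ E = 1 * z0 ^ E := by
    rw [one_mul, ← pow_add]
    have : E * (l ^ f - 1) + E = Q * E := by
      rw [hQ, Nat.mul_sub, mul_one, Nat.sub_add_cancel (Nat.le_mul_of_pos_right _ hQ1), mul_comm]
    rw [this, pow_mul]
    exact h2.symm
  exact mul_right_cancel₀ (pow_ne_zero _ hz) h6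

/-- comparison with level `f` -/
theorem Loc.levf (L : Loc l δ θ r s h σ0 z0) (f : ℕ) (hf : 0 < f) (t : Equiv.Perm (Fin 2))
    (ht : ∀ (σ : Gal F) (a : k),
      CongPow (RingHom.ker θ) 1 σ → FCh l θ r σ a → ∀ b,
      ((δ b σ⁻¹ : kˣ) : k) = a ^ (∑ i : Fin r, l ^ (i : ℕ) * h (s i (t b))))
    (hper : ∀ b i, dg s L.pos h (t b) (i + f) = dg s L.pos h (t b) i)
    (σ : Gal F) (w : k) (hσ : CongPow (RingHom.ker θ) 1 σ) (hw : FCh l θ f σ w) (b : Fin 2) :
    ((δ b σ⁻¹ : kˣ) : k) = w ^ (∑ i ∈ Finset.range f, l ^ i * dg s L.pos h (t b) i) := by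
  obtain ⟨A, hA, -⟩ := L.ex (r * f) σ (Nat.mul_pos L.pos hf) hσ
  have h1 := L.lev r f σ A L.pos hf hσ hA
  have h2 := L.lev f r σ A hf L.pos hσ (by rw [mul_comm f r]; exact hA)
  have h3 := L.uniq f σ _ _ hf hσ hw h2
  rw [ht σ _ hσ h1 b, dg_sum s L.pos h (t b) l, h3, ← pow_mul, ← pow_mul,
    ← sum_period l r _ L.two L.pos (dg_period s L.pos h (t b)) f,
    ← sum_period l f _ L.two hf (hper b) r, mul_comm f r]

end

end

end Pool.Agent.Helper15.REC
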